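import Pool.Agent.W177.KK.KBar

/-!
The bar complex of a possibly non-unital complex algebra, H-unitality, and the algebras of compact and of
approximable operators on a Banach space.
-/

set_option autoImplicit false

namespace W700.KB

section
variable (A : Type) [NonUnitalRing A] [Module ℂ A]

/-- The algebraic tensor power `A^{⊗(n+1)}` over `ℂ`, as a complex vector space. -/
noncomputable def TP (n : ℕ) : ModuleCat ℂ :=
  ModuleCat.of ℂ (PiTensorProduct ℂ (fun _ : Fin (n + 1) => A))

variable {A}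

/-- The elementary tensor `a 0 ⊗ ⋯ ⊗ a n`. -/
noncomputable def tens {n : ℕ} (a : Fin (n + 1) → A) : TP A n := PiTensorProduct.tprod ℂ a

/-- The tuple `(a 0, …, a i * a (i + 1), …, a (n + 1))`. -/
def contr {n : ℕ} (i : Fin (n + 1)) (a : Fin (n + 2) → A) : Fin (n + 1) → A :=
  fun j => if j < i then a j.castSucc else if j = i then a i.castSucc * a i.succ else a j.succ

variable (A)

/-- The differentials of the bar complex: `d n` is a linear map `A^{⊗(n+2)} → A^{⊗(n+1)}` with
`d n (a 0 ⊗ ⋯ ⊗ a (n+1)) = ∑ i ≤ n, (-1)^i a 0 ⊗ ⋯ ⊗ a i * a (i+1) ⊗ ⋯ ⊗ a (n+1)`. -/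
def IsBar (d : ∀ n : ℕ, TP A (n + 1) →ₗ[ℂ] TP A n) : Prop :=
  ∀ (n : ℕ) (a : Fin (n + 2) → A),
    d n (tens a) = ∑ i : Fin (n + 1), ((-1 : ℂ) ^ (i : ℕ)) • tens (contr i a)

/-- Linear maps on tensor powers are determined by their values on elementary tensors. -/
theorem ext_tens {n m : ℕ} (f g : TP A n →ₗ[ℂ] TP A m) (h : ∀ a : Fin (n + 1) → A,
    f (tens a) = g (tens a)) : f = g :=
  PiTensorProduct.ext (MultilinearMap.ext h)

variable [IsScalarTower ℂ A A] [SMulCommClass ℂ A A]

theorem exists_unique_isBar : ∃! d : ∀ n : ℕ, TP A (n + 1) →ₗ[ℂ] TP A n, IsBar A d := by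
  refine ⟨fun n => Pool.Agent.W177.KK.bp A n, fun n a => Pool.Agent.W177.KK.bp_tprod A n a,
    fun d hd => ?_⟩
  funext n
  refine ext_tens A _ _ (fun a => ?_)
  rw [hd n a]
  exact (Pool.Agent.W177.KK.bp_tprod A n a).symm

/-- The differentials of the bar complex. -/
noncomputable def bar : ∀ n : ℕ, TP A (n + 1) →ₗ[ℂ] TP A n := (exists_unique_isBar A).choose

/-- `A` is H-unital: its bar complex `⋯ → A ⊗ A ⊗ A → A ⊗ A → A → 0` is exact in every degree. -/
def HUnital : Prop :=
  Function.Surjective (bar A 0) ∧ ∀ n : ℕ, Function.Exact (bar A (n + 1)) (bar A n)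

theorem bar_eq (n : ℕ) : bar A n = Pool.Agent.W177.KK.bp A n := by
  have h := (exists_unique_isBar A).choose_spec
  have h2 := h.2 (fun n => Pool.Agent.W177.KK.bp A n)
    (fun n a => Pool.Agent.W177.KK.bp_tprod A n a)
  exact (congrFun h2 n).symm

theorem hunital_iff : HUnital A ↔ Pool.Agent.W177.KK.HUnital A := by
  unfold HUnital Pool.Agent.W177.KK.HUnital
  simp only [bar_eq]
  refine and_congr Iff.rfl (forall_congr' (fun n => ?_))
  exact (LinearMap.exact_iff (f := Pool.Agent.W177.KK.bp A (n + 1))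
    (g := Pool.Agent.W177.KK.bp A n)).trans eq_comm

end

/-- H-unitality of a (possibly non-unital) subalgebra of a complex algebra. -/
def HUnitalSub {R : Type} [Ring R] [Algebra ℂ R] (B : NonUnitalSubalgebra ℂ R) : Prop := HUnital B

/-- An algebra which is not spanned by its products is not H-unital. -/
theorem not_hunital {R : Type} [Ring R] [Algebra ℂ R] (B : NonUnitalSubalgebra ℂ R)
    (h : ∃ T : R, T ∈ B ∧ T ∉ Submodule.span ℂ {w | ∃ a ∈ B, ∃ b ∈ B, w = a * b}) :
    ¬ HUnitalSub B := by
  unfold HUnitalSub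
  rw [hunital_iff]
  exact Pool.Agent.W177.KK.not_hunital_sub B h

section
variable (E : Type) [NormedAddCommGroup E] [NormedSpace ℂ E]

/-- The algebra of compact operators on `E`. -/
def KE : NonUnitalSubalgebra ℂ (E →L[ℂ] E) where
  carrier := {T | IsCompactOperator T}
  add_mem' := fun ha hb => ha.add hb
  zero_mem' := isCompactOperator_zero
  mul_mem' := fun {_ b} ha _ => ha.comp_clm b
  smul_mem' := fun c _ ha => ha.smul c

variable {E} in
/-- Bounded operators with finite-dimensional range. -/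
def FinRank (S : E →L[ℂ] E) : Prop := FiniteDimensional ℂ (LinearMap.range (S : E →ₗ[ℂ] E))

variable {E} in
theorem FinRank.add {S T : E →L[ℂ] E} (hS : FinRank S) (hT : FinRank T) : FinRank (S + T) :=
  (Pool.Agent.W177.KK.FR E).add_mem' hS hT

variable {E} in
theorem FinRank.mul {S T : E →L[ℂ] E} (hS : FinRank S) (hT : FinRank T) : FinRank (S * T) :=
  (Pool.Agent.W177.KK.FR E).mul_mem' hS hT

theorem FinRank.zero : FinRank (0 : E →L[ℂ] E) := (Pool.Agent.W177.KK.FR E).zero_mem'

variable {E} in
theorem FinRank.smul (c : ℂ) {S : E →L[ℂ] E} (hS : FinRank S) : FinRank (c • S) :=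
  (Pool.Agent.W177.KK.FR E).smul_mem' c hS

/-- The algebra of bounded finite rank operators on `E`. -/
def FR : NonUnitalSubalgebra ℂ (E →L[ℂ] E) where
  carrier := {S | FinRank S}
  add_mem' := FinRank.add
  zero_mem' := FinRank.zero E
  mul_mem' := FinRank.mul
  smul_mem' := fun c _ hS => hS.smul c

/-- The algebra of approximable operators on `E`, the operator norm closure of the algebra of finite rank
operators. -/
noncomputable def FE : NonUnitalSubalgebra ℂ (E →L[ℂ] E) := (FR E).topologicalClosure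

end

end W700.KB
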