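import Pool.Agent.W700.KK.Main

set_option autoImplicit false

open Filter Topology

namespace W700.KK

section
variable {Y : Type} [NormedAddCommGroup Y] [NormedSpace ℂ Y] {D : TrD Y}
variable {X : Type} [NormedAddCommGroup X] [NormedSpace ℂ X] (P : XD D X)

include P in
lemma app_comp (a : X →L[ℂ] Y) (q : X →L[ℂ] X) (hq : IsCompactOperator q) : App (a.comp q) := by
  intro ε hε
  obtain ⟨S', hS', hn⟩ := P.approx q hq (ε / (‖a‖ + 1)) (by positivity)
  refine ⟨a.comp S', ?_, ?_⟩
  · have h1 : LinearMap.range ((a.comp S' : X →L[ℂ] Y) : X →ₗ[ℂ] Y) =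
        (LinearMap.range (S' : X →ₗ[ℂ] X)).map (a : X →ₗ[ℂ] Y) := by
      exact LinearMap.range_comp (S' : X →ₗ[ℂ] X) (a : X →ₗ[ℂ] Y)
    rw [h1]
    infer_instance
  · rw [← ContinuousLinearMap.comp_sub]
    calc _ ≤ ‖a‖ * ‖q - S'‖ := ContinuousLinearMap.opNorm_comp_le _ _
      _ ≤ (‖a‖ + 1) * (ε / (‖a‖ + 1)) :=
          mul_le_mul (by linarith) hn (norm_nonneg _) (by positivity)
      _ = ε := by field_simp

lemma app_zero : App (0 : X →L[ℂ] Y) := by
  intro ε hε
  refine ⟨0, ?_, by simpa using hε.le⟩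
  have : LinearMap.range ((0 : X →L[ℂ] Y) : X →ₗ[ℂ] Y) = ⊥ := by
    rw [ContinuousLinearMap.toLinearMap_zero]
    exact LinearMap.range_zero
  rw [this]
  infer_instance

lemma app_add {S T : X →L[ℂ] Y} (hS : App S) (hT : App T) : App (S + T) := by
  intro ε hε
  obtain ⟨S', h1, h2⟩ := hS (ε / 2) (by positivity)
  obtain ⟨T', h3, h4⟩ := hT (ε / 2) (by positivity)
  refine ⟨S' + T', ?_, ?_⟩
  · have h5 : LinearMap.range ((S' + T' : X →L[ℂ] Y) : X →ₗ[ℂ] Y) ≤
        LinearMap.range (S' : X →ₗ[ℂ] Y) ⊔ LinearMap.range (T' : X →ₗ[ℂ] Y) := by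
      rintro _ ⟨x, rfl⟩
      exact Submodule.add_mem_sup (LinearMap.mem_range_self _ x) (LinearMap.mem_range_self _ x)
    exact Submodule.finiteDimensional_of_le h5
  · have h6 : S + T - (S' + T') = (S - S') + (T - T') := by abel
    rw [h6]
    exact (norm_add_le _ _).trans (by linarith)

lemma app_sum {ι : Type} (s : Finset ι) (S : ι → X →L[ℂ] Y) (h : ∀ i, App (S i)) :
    App (∑ i ∈ s, S i) := by
  classical
  induction s using Finset.induction_on with
  | empty => simpa using app_zero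
  | insert a s ha ih => rw [Finset.sum_insert ha]; exact app_add (h a) ih

variable [TopologicalSpace.SeparableSpace Y]

include P in
/-- The compact operators on `X × Y` are not spanned by products. -/
theorem conc (hKL : S_KL) (hKT : S_KT) :
    ∃ T : (X × Y) →L[ℂ] (X × Y), IsCompactOperator T ∧
      T ∉ Submodule.span ℂ {w : (X × Y) →L[ℂ] (X × Y) | ∃ a b : (X × Y) →L[ℂ] (X × Y),
        IsCompactOperator a ∧ IsCompactOperator b ∧ w = a.comp b} := by
  obtain ⟨α, hα⟩ := no_dec P hKL hKT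
  set i1 : X →L[ℂ] X × Y := ContinuousLinearMap.inl ℂ X Y with hi1
  set i2 : Y →L[ℂ] X × Y := ContinuousLinearMap.inr ℂ X Y with hi2
  set p1 : X × Y →L[ℂ] X := ContinuousLinearMap.fst ℂ X Y with hp1
  set p2 : X × Y →L[ℂ] Y := ContinuousLinearMap.snd ℂ X Y with hp2
  refine ⟨(i2.comp (P.T α)).comp p1, ?_, fun hT => ?_⟩
  · exact ((P.compT α).clm_comp i2).comp_clm p1
  · rw [Submodule.mem_span_set'] at hT
    obtain ⟨n, f, g, hfg⟩ := hT
    have hg : ∀ i : Fin n, ∃ a b : (X × Y) →L[ℂ] (X × Y), IsCompactOperator a ∧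
        IsCompactOperator b ∧ (g i : (X × Y) →L[ℂ] (X × Y)) = a.comp b := fun i => (g i).2
    choose a b ha hb hab using hg
    set d : Fin n → (Y →L[ℂ] Y) := fun l => f l • (p2.comp (a l)).comp i2 with hd
    set c : Fin n → (X →L[ℂ] Y) := fun l => (p2.comp (b l)).comp i1 with hc
    set q : Fin n → (X →L[ℂ] X) := fun l => (p1.comp (b l)).comp i1 with hq
    set a' : Fin n → (X →L[ℂ] Y) := fun l => f l • (p2.comp (a l)).comp i1 with ha'
    set G : X →L[ℂ] Y := ∑ l, (a' l).comp (q l) with hG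
    have hdc : ∀ l, IsCompactOperator (d l) := by
      intro l
      have h1 : IsCompactOperator ((p2.comp (a l)).comp i2) := ((ha l).clm_comp p2).comp_clm i2
      exact h1.smul (f l)
    have hcc : ∀ l, IsCompactOperator (c l) := fun l => ((hb l).clm_comp p2).comp_clm i1
    have hqc : ∀ l, IsCompactOperator (q l) := fun l => ((hb l).clm_comp p1).comp_clm i1
    have hex : ∀ l, ∃ L : Y →ₗ[ℂ] Y, IsLim P α (c l) L := fun l => hKL Y D X P Y α (c l) (hcc l)
    choose L hL using hex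
    obtain ⟨M, hM⟩ := exists_nat_ge (‖G‖ + ∑ l, ‖d l‖ + ∑ l, ‖c l‖)
    have hs1 : 0 ≤ ∑ l, ‖d l‖ := Finset.sum_nonneg (fun _ _ => norm_nonneg _)
    have hs2 : 0 ≤ ∑ l, ‖c l‖ := Finset.sum_nonneg (fun _ _ => norm_nonneg _)
    have hG0 := norm_nonneg G
    refine (hα n M).false ⟨d, c, G, L, hdc, fun l => ?_, fun l => ?_, ?_, ?_,
      app_sum _ _ (fun l => app_comp P (a' l) (q l) (hqc l)), hL⟩
    · have := Finset.single_le_sum (f := fun l => ‖d l‖) (fun _ _ => norm_nonneg _)
        (Finset.mem_univ l)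
      beta_reduce at this
      linarith
    · have := Finset.single_le_sum (f := fun l => ‖c l‖) (fun _ _ => norm_nonneg _)
        (Finset.mem_univ l)
      beta_reduce at this
      linarith
    · linarith
    · rw [hG, ← Finset.sum_add_distrib]
      ext x
      have h1 := congrArg (fun S : (X × Y) →L[ℂ] (X × Y) => (S (x, 0)).2) hfg
      have h2 : (((i2.comp (P.T α)).comp p1) (x, 0)).2 = P.T α x := rfl
      rw [h2] at h1
      rw [← h1]
      simp only [_root_.sum_apply, Prod.snd_sum]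
      refine Finset.sum_congr rfl (fun l _ => ?_)
      rw [hab l]
      have h3 : b l (x, 0) = i1 (q l x) + i2 (c l x) := by
        apply Prod.ext
        · show (b l (x, 0)).1 = (b l (x, 0)).1 + 0
          rw [add_zero]
        · show (b l (x, 0)).2 = 0 + (b l (x, 0)).2
          rw [zero_add]
      show (f l • (a l (b l (x, 0)))).2 = f l • (a l (i2 (c l x))).2 + f l • (a l (i1 (q l x))).2
      rw [h3, map_add, ← smul_add, add_comm]
      rfl

end

/-- The final theorem from the parts. -/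
theorem final (hKY : S_KY) (hKA : S_KA) (hKX : S_KX) (hKL : S_KL) (hKT : S_KT) :
    ∃ (E : Type) (_ : NormedAddCommGroup E) (_ : NormedSpace ℂ E) (_ : CompleteSpace E)
      (T : E →L[ℂ] E), IsCompactOperator T ∧
      T ∉ Submodule.span ℂ {w : E →L[ℂ] E | ∃ a b : E →L[ℂ] E,
        IsCompactOperator a ∧ IsCompactOperator b ∧ w = a.comp b} := by
  obtain ⟨Y, i1, i2, i3, i4, ⟨D⟩⟩ := hKY
  obtain ⟨X, j1, j2, j3, ⟨P⟩⟩ := hKX hKA Y D
  obtain ⟨T, hT, hT'⟩ := conc P hKL hKT
  exact ⟨X × Y, inferInstance, inferInstance, inferInstance, T, hT, hT'⟩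

end W700.KK
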