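import Mathlib

/-!
Definitions and intermediate statements for MP_5c7eee_an and MP_d957af_an: a Banach space `E` for which
the algebra of compact operators is not spanned by products.
-/

set_option autoImplicit false

open Filter Topology

namespace W700.KK

/-- Trace data on a Banach space: finite dimensional subspaces `Yk k`, and normalised traces
`(1 / s k) * ∑ i, f k i (R (e k i))` which vary little with `k`. -/
structure TrD (Y : Type) [NormedAddCommGroup Y] [NormedSpace ℂ Y] where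
  Yk : ℕ → Submodule ℂ Y
  mono : Monotone Yk
  fd : ∀ k, FiniteDimensional ℂ (Yk k)
  s : ℕ → ℕ
  s_pos : ∀ k, 0 < s k
  e : ∀ k, Fin (s k) → Y
  e_mem : ∀ k i, e k i ∈ Yk (k + 1)
  norm_e : ∀ k i, ‖e k i‖ ≤ 6
  f : ∀ k, Fin (s k) → (Y →L[ℂ] ℂ)
  norm_f : ∀ k i, ‖f k i‖ ≤ 1
  f_tend : ∀ (y : Y) (ε : ℝ), 0 < ε → ∃ K, ∀ k, K ≤ k → ∀ i, ‖f k i y‖ ≤ ε
  trace_id : ∀ k, ∑ i, f k i (e k i) = s k
  r : ℕ → ℕ
  b : ∀ k, Fin (r k) → Y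
  b_mem : ∀ k g, b k g ∈ Yk (k + 2)
  norm_b : ∀ k g, ‖b k g‖ ≤ 6
  step : ∀ (k : ℕ) (R : Y →ₗ[ℂ] Y) (ε : ℝ), (∀ g, ‖R (b k g)‖ ≤ ε) →
    ‖(∑ i, f k i (R (e k i))) / (s k : ℂ) -
      (∑ i, f (k + 1) i (R (e (k + 1) i))) / (s (k + 1) : ℂ)‖ ≤ 2 * (1 / 2) ^ k * ε
  rank_one : ∀ (k : ℕ) (φ : Y →ₗ[ℂ] ℂ) (C : ℝ), 0 ≤ C → (∀ y ∈ Yk (k + 1), ‖φ y‖ ≤ C * ‖y‖) →
    ∀ y, ‖∑ i, φ (e k i) * f k i y‖ ≤ 6 * 2 ^ k * C * ‖y‖
  hs : ∀ ε : ℝ, 0 < ε → ∃ K, ∀ k, K ≤ k → (4 : ℝ) ^ k / s k ≤ ε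

/-- The normalised trace. -/
noncomputable def TrD.tr {Y : Type} [NormedAddCommGroup Y] [NormedSpace ℂ Y] (D : TrD Y) (k : ℕ)
    (R : Y →ₗ[ℂ] Y) : ℂ :=
  (∑ i, D.f k i (R (D.e k i))) / (D.s k : ℂ)

/-- The rapidly growing sequence attached to `α`. -/
def AA (α : ℕ → ℕ) (r : ℕ) : ℕ := 4 * (r + 1) + ∑ i ∈ Finset.range (r + 1), α i

/-- The second space: it contains a copy of every `Yk n` with a larger norm depending on `α`, and there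
are compact operators `T α` which invert these embeddings. -/
structure XD {Y : Type} [NormedAddCommGroup Y] [NormedSpace ℂ Y] (D : TrD Y) (X : Type)
    [NormedAddCommGroup X] [NormedSpace ℂ X] where
  inj : (ℕ → ℕ) → ∀ n, D.Yk n →ₗ[ℂ] X
  T : (ℕ → ℕ) → (X →L[ℂ] Y)
  compT : ∀ α, IsCompactOperator (T α)
  T_inj : ∀ α n (y : D.Yk n), T α (inj α n y) = (y : Y)
  norm_inj : ∀ (α : ℕ → ℕ) (n R : ℕ) (y : D.Yk n), (y : Y) ∈ D.Yk (AA α R) →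
    ‖inj α n y‖ ≤ 2 ^ R * ‖(y : Y)‖
  approx : ∀ S : X →L[ℂ] X, IsCompactOperator S → ∀ ε : ℝ, 0 < ε → ∃ S' : X →L[ℂ] X,
    FiniteDimensional ℂ (LinearMap.range (S' : X →ₗ[ℂ] X)) ∧ ‖S - S'‖ ≤ ε

/-- The embedding of `Yk n`, extended by zero. -/
noncomputable def XD.J {Y : Type} [NormedAddCommGroup Y] [NormedSpace ℂ Y] {D : TrD Y} {X : Type}
    [NormedAddCommGroup X] [NormedSpace ℂ X] (P : XD D X) (α : ℕ → ℕ) (n : ℕ) (y : Y) : X := by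
  classical
  exact if h : y ∈ D.Yk n then P.inj α n ⟨y, h⟩ else 0

/-- KY: the space `Y`. -/
def S_KY : Prop :=
  ∃ (Y : Type) (_ : NormedAddCommGroup Y) (_ : NormedSpace ℂ Y) (_ : CompleteSpace Y)
    (_ : TopologicalSpace.SeparableSpace Y), Nonempty (TrD Y)

/-- KA: compact operators on an `ℓ₁`-sum of finite dimensional spaces are approximable. -/
def S_KA : Prop :=
  ∀ (I : Type) (F : I → Type) [∀ i, NormedAddCommGroup (F i)] [∀ i, NormedSpace ℂ (F i)]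
    [∀ i, FiniteDimensional ℂ (F i)] (S : lp F 1 →L[ℂ] lp F 1), IsCompactOperator S →
    ∀ ε : ℝ, 0 < ε → ∃ S' : lp F 1 →L[ℂ] lp F 1,
      FiniteDimensional ℂ (LinearMap.range (S' : lp F 1 →ₗ[ℂ] lp F 1)) ∧ ‖S - S'‖ ≤ ε

/-- KX: the space `X` (KA is a hypothesis). -/
def S_KX : Prop :=
  S_KA → ∀ (Y : Type) [NormedAddCommGroup Y] [NormedSpace ℂ Y] [CompleteSpace Y] (D : TrD Y),
    ∃ (X : Type) (_ : NormedAddCommGroup X) (_ : NormedSpace ℂ X) (_ : CompleteSpace X),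
      Nonempty (XD D X)

/-- KL: the limit of a compact operator along the embeddings. -/
def S_KL : Prop :=
  ∀ (Y : Type) [NormedAddCommGroup Y] [NormedSpace ℂ Y] (D : TrD Y) (X : Type)
    [NormedAddCommGroup X] [NormedSpace ℂ X] (P : XD D X) (Z : Type) [NormedAddCommGroup Z]
    [NormedSpace ℂ Z] (α : ℕ → ℕ) (S : X →L[ℂ] Z), IsCompactOperator S →
    ∃ L : Y →ₗ[ℂ] Z, ∀ (k : ℕ) (y : Y), y ∈ D.Yk k →
      Tendsto (fun n => S (P.J α n y)) (hyperfilter ℕ : Filter ℕ) (𝓝 (L y))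

/-- KT: the functionals tend to zero uniformly on compact sets. -/
def S_KT : Prop :=
  ∀ (Y : Type) [NormedAddCommGroup Y] [NormedSpace ℂ Y] (D : TrD Y) (d : Y →L[ℂ] Y),
    IsCompactOperator d → ∀ ε : ℝ, 0 < ε → ∃ K, ∀ k, K ≤ k → ∀ i, ‖(D.f k i).comp d‖ ≤ ε

/-- KC: the diagonal argument. -/
def S_KC : Prop :=
  ∀ (C : Type) [Countable C] (code : (ℕ → ℕ) → C) (s : (ℕ → ℕ) → ℕ → ℕ),
    ¬ ∀ α β : ℕ → ℕ, code α = code β → ∀ r, β r ≤ s α r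

end W700.KK
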