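import Pool.Agent.W700.KK.Defs

set_option autoImplicit false

open Filter Topology

namespace W700.KK

/-- No countable family of pointwise bounded sets covers the Baire space. -/
theorem diag (C : Type) [Countable C] (U : C → Set (ℕ → ℕ))
    (h : ∀ c, ∃ s : ℕ → ℕ, ∀ β ∈ U c, ∀ r, β r ≤ s r) : ∃ γ : ℕ → ℕ, ∀ c, γ ∉ U c := by
  classical
  choose s hs using h
  obtain ⟨enc, henc⟩ := exists_injective_nat C
  refine ⟨fun j => if hj : ∃ c, enc c = j then s hj.choose j + 1 else 0, fun c hc => ?_⟩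
  have h1 := hs c _ hc (enc c)
  have h2 : ∃ c', enc c' = enc c := ⟨c, rfl⟩
  have h3 : h2.choose = c := henc h2.choose_spec
  simp only [dif_pos h2] at h1
  rw [h3] at h1
  omega

lemma le_AA (α : ℕ → ℕ) (r : ℕ) : 4 * (r + 1) ≤ AA α r := Nat.le_add_right _ _

lemma le_AA' (α : ℕ → ℕ) (r : ℕ) : α r ≤ AA α r := by
  unfold AA
  rw [Finset.sum_range_succ]
  omega

lemma AA_mono (α : ℕ → ℕ) : Monotone (AA α) := by
  refine monotone_nat_of_le_succ (fun r => ?_)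
  unfold AA
  rw [Finset.sum_range_succ (fun i => α i) (r + 1)]
  omega

section
variable {Y : Type} [NormedAddCommGroup Y] [NormedSpace ℂ Y] {D : TrD Y}

lemma tr_le (D : TrD Y) (k : ℕ) (R : Y →ₗ[ℂ] Y) (C : ℝ)
    (h : ∀ i, ‖D.f k i (R (D.e k i))‖ ≤ C) : ‖D.tr k R‖ ≤ C := by
  have hs : (0 : ℝ) < D.s k := by exact_mod_cast D.s_pos k
  unfold TrD.tr
  rw [norm_div, Complex.norm_natCast, div_le_iff₀ hs]
  calc _ ≤ ∑ i : Fin (D.s k), C := norm_sum_le_of_le _ (fun i _ => h i)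
    _ = _ := by rw [Finset.sum_const, Finset.card_univ, Fintype.card_fin, nsmul_eq_mul, mul_comm]

lemma tr_le' (D : TrD Y) (k : ℕ) (R : Y →ₗ[ℂ] Y) (C : ℝ) 
    (h : ∀ i, ‖R (D.e k i)‖ ≤ C) : ‖D.tr k R‖ ≤ C := by
  refine tr_le D k R C (fun i => ?_)
  calc _ ≤ ‖D.f k i‖ * ‖R (D.e k i)‖ := (D.f k i).le_opNorm _
    _ ≤ 1 * ‖R (D.e k i)‖ := mul_le_mul_of_nonneg_right (D.norm_f k i) (norm_nonneg _)
    _ ≤ C := by rw [one_mul]; exact h i

lemma tr_sub (D : TrD Y) (k : ℕ) (R R' : Y →ₗ[ℂ] Y) : D.tr k (R - R') = D.tr k R - D.tr k R' := by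
  unfold TrD.tr
  rw [← sub_div, ← Finset.sum_sub_distrib]
  congr 1
  refine Finset.sum_congr rfl (fun i _ => ?_)
  rw [LinearMap.sub_apply, map_sub]

lemma tr_congr (D : TrD Y) (k : ℕ) (R R' : Y →ₗ[ℂ] Y) (h : ∀ y ∈ D.Yk (k + 1), R y = R' y) :
    D.tr k R = D.tr k R' := by
  unfold TrD.tr
  congr 1
  exact Finset.sum_congr rfl (fun i _ => by rw [h _ (D.e_mem k i)])

lemma tr_id (D : TrD Y) (k : ℕ) : D.tr k LinearMap.id = 1 := by
  have hs : (D.s k : ℂ) ≠ 0 := by exact_mod_cast (D.s_pos k).ne'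
  unfold TrD.tr
  simp only [LinearMap.id_apply]
  rw [D.trace_id k, div_self hs]

variable {X : Type} [NormedAddCommGroup X] [NormedSpace ℂ X] (P : XD D X)

/-- `L` is the limit of `S`. -/
def IsLim {Z : Type} [NormedAddCommGroup Z] [NormedSpace ℂ Z] (α : ℕ → ℕ) (S : X →L[ℂ] Z)
    (L : Y →ₗ[ℂ] Z) : Prop :=
  ∀ (k : ℕ) (y : Y), y ∈ D.Yk k →
    Tendsto (fun n => S (P.J α n y)) (hyperfilter ℕ : Filter ℕ) (𝓝 (L y))

lemma J_norm (α : ℕ → ℕ) (R n : ℕ) (y : Y) (hy : y ∈ D.Yk (AA α R)) :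
    ‖P.J α n y‖ ≤ 2 ^ R * ‖y‖ := by
  unfold XD.J
  split_ifs with h
  · exact P.norm_inj α n R ⟨y, h⟩ hy
  · rw [norm_zero]; positivity

section
variable {Z : Type} [NormedAddCommGroup Z] [NormedSpace ℂ Z]
variable {Z' : Type} [NormedAddCommGroup Z'] [NormedSpace ℂ Z']

lemma IsLim.norm_le {α : ℕ → ℕ} {S : X →L[ℂ] Z} {L : Y →ₗ[ℂ] Z} (h : IsLim P α S L) (R k : ℕ)
    (hk : k ≤ AA α R) (y : Y) (hy : y ∈ D.Yk k) : ‖L y‖ ≤ ‖S‖ * (2 ^ R * ‖y‖) := by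
  refine le_of_tendsto (h k y hy).norm (Eventually.of_forall (fun n => ?_))
  exact (S.le_opNorm _).trans (mul_le_mul_of_nonneg_left
    (J_norm P α R n y (D.mono hk hy)) (norm_nonneg _))

lemma IsLim.comp {α : ℕ → ℕ} {S : X →L[ℂ] Z} {L : Y →ₗ[ℂ] Z} (h : IsLim P α S L)
    (a : Z →L[ℂ] Z') : IsLim P α (a.comp S) ((a : Z →ₗ[ℂ] Z').comp L) := fun k y hy =>
  (a.continuous.tendsto _).comp (h k y hy)

lemma IsLim.sub {α : ℕ → ℕ} {S S' : X →L[ℂ] Z} {L L' : Y →ₗ[ℂ] Z} (h : IsLim P α S L)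
    (h' : IsLim P α S' L') : IsLim P α (S - S') (L - L') := fun k y hy =>
  (h k y hy).sub (h' k y hy)

lemma IsLim.sum {α : ℕ → ℕ} {ι : Type} (s : Finset ι) (S : ι → X →L[ℂ] Z) (L : ι → Y →ₗ[ℂ] Z)
    (h : ∀ i, IsLim P α (S i) (L i)) : IsLim P α (∑ i ∈ s, S i) (∑ i ∈ s, L i) := by
  intro k y hy
  have h1 := tendsto_finsetSum s (fun i _ => h i k y hy)
  simp only [_root_.sum_apply, LinearMap.sum_apply]
  exact h1

lemma IsLim.unique {α : ℕ → ℕ} {S : X →L[ℂ] Z} {L L' : Y →ₗ[ℂ] Z} (h : IsLim P α S L)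
    (h' : IsLim P α S L') (k : ℕ) (y : Y) (hy : y ∈ D.Yk k) : L y = L' y :=
  tendsto_nhds_unique (h k y hy) (h' k y hy)

end

lemma J_eq (α : ℕ → ℕ) (k n : ℕ) (y : Y) (hy : y ∈ D.Yk k) (hn : k ≤ n) :
    P.T α (P.J α n y) = y := by
  unfold XD.J
  rw [dif_pos (D.mono hn hy), P.T_inj]

lemma isLim_T (α : ℕ → ℕ) : IsLim P α (P.T α) LinearMap.id := by
  intro k y hy
  refine tendsto_const_nhds.congr' ?_
  have h1 : ∀ᶠ n in (atTop : Filter ℕ), k ≤ n := eventually_ge_atTop k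
  have h2 : (hyperfilter ℕ : Filter ℕ) ≤ atTop := by
    rw [← Nat.cofinite_eq_atTop]; exact hyperfilter_le_cofinite
  filter_upwards [h2 h1] with n hn
  rw [LinearMap.id_apply, J_eq P α k n y hy hn]

lemma pow_bound (k : ℕ) : (2 : ℝ) ^ (k / 4) ≤ (5 / 4) ^ k := by
  have h1 : 4 * (k / 4) ≤ k := Nat.mul_div_le k 4
  calc (2 : ℝ) ^ (k / 4) ≤ ((5 / 4) ^ 4) ^ (k / 4) := by
        refine pow_le_pow_left₀ (by norm_num) (by norm_num) _
    _ = (5 / 4) ^ (4 * (k / 4)) := by rw [pow_mul]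
    _ ≤ (5 / 4) ^ k := pow_le_pow_right₀ (by norm_num) h1

lemma k_le_AA (α : ℕ → ℕ) (k : ℕ) : k ≤ AA α (k / 4) := by
  have := le_AA α (k / 4)
  omega

lemma step_lim {α : ℕ → ℕ} {S : X →L[ℂ] Y} {L : Y →ₗ[ℂ] Y} (h : IsLim P α S L) (k : ℕ) :
    ‖D.tr k L - D.tr (k + 1) L‖ ≤ 24 * (5 / 8) ^ k * ‖S‖ := by
  have h1 : ∀ g, ‖L (D.b k g)‖ ≤ 12 * (5 / 4) ^ k * ‖S‖ := by
    intro g
    have h2 := h.norm_le P ((k + 2) / 4) (k + 2) (k_le_AA α (k + 2)) (D.b k g) (D.b_mem k g)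
    refine h2.trans ?_
    have h3 := pow_bound (k + 2)
    have h4 : (5 / 4 : ℝ) ^ (k + 2) ≤ 2 * (5 / 4) ^ k := by
      rw [pow_add]
      have : (0 : ℝ) < (5 / 4) ^ k := by positivity
      nlinarith
    have h5 := D.norm_b k g
    calc ‖S‖ * (2 ^ ((k + 2) / 4) * ‖D.b k g‖) ≤ ‖S‖ * ((2 * (5 / 4) ^ k) * 6) := by
          refine mul_le_mul_of_nonneg_left ?_ (norm_nonneg _)
          exact mul_le_mul (h3.trans h4) h5 (norm_nonneg _) (by positivity)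
      _ = _ := by ring
  have h2 := D.step k L _ h1
  refine h2.trans (le_of_eq ?_)
  have : (5 / 8 : ℝ) ^ k = (1 / 2) ^ k * (5 / 4) ^ k := by rw [← mul_pow]; norm_num
  rw [this]; ring

lemma tel {α : ℕ → ℕ} {S : X →L[ℂ] Y} {L : Y →ₗ[ℂ] Y} (h : IsLim P α S L) (k0 j : ℕ) :
    ‖D.tr k0 L - D.tr (k0 + j) L‖ ≤ 64 * (5 / 8) ^ k0 * ‖S‖ := by
  have h1 : ‖D.tr k0 L - D.tr (k0 + j) L‖ ≤ 64 * ((5 / 8) ^ k0 - (5 / 8) ^ (k0 + j)) * ‖S‖ := by
    induction j with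
    | zero => simp
    | succ j ih =>
      have h2 := step_lim P h (k0 + j)
      have h3 : D.tr k0 L - D.tr (k0 + (j + 1)) L =
          (D.tr k0 L - D.tr (k0 + j) L) + (D.tr (k0 + j) L - D.tr (k0 + j + 1) L) := by
        rw [← add_assoc]; ring
      rw [h3]
      refine (norm_add_le _ _).trans ?_
      refine (add_le_add ih h2).trans (le_of_eq ?_)
      rw [← add_assoc, pow_succ (5 / 8 : ℝ) (k0 + j)]
      ring
  refine h1.trans ?_
  have h2 : (0 : ℝ) < (5 / 8) ^ (k0 + j) := by positivity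
  refine mul_le_mul_of_nonneg_right ?_ (norm_nonneg _)
  linarith

lemma unif {α : ℕ → ℕ} {S : X →L[ℂ] Y} {L : Y →ₗ[ℂ] Y} (h : IsLim P α S L) (k : ℕ) :
    ‖D.tr k L‖ ≤ 70 * ‖S‖ := by
  have h1 : ‖D.tr 0 L‖ ≤ 6 * ‖S‖ := by
    refine tr_le' D 0 L _ (fun i => ?_)
    have h2 := h.norm_le P 0 1 (by have := le_AA α 0; omega) (D.e 0 i) (D.e_mem 0 i)
    rw [pow_zero, one_mul] at h2
    have h3 := mul_le_mul_of_nonneg_left (D.norm_e 0 i) (norm_nonneg S)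
    linarith
  have h2 := tel P h 0 k
  rw [zero_add, pow_zero] at h2
  have h3 : ‖D.tr k L‖ ≤ ‖D.tr 0 L‖ + ‖D.tr 0 L - D.tr k L‖ := by
    have := norm_sub_le (D.tr 0 L) (D.tr 0 L - D.tr k L)
    rwa [sub_sub_cancel] at this
  linarith

/-- The operators which are limits of finite rank operators. -/
def App (S : X →L[ℂ] Y) : Prop :=
  ∀ ε : ℝ, 0 < ε → ∃ S' : X →L[ℂ] Y,
    FiniteDimensional ℂ (LinearMap.range (S' : X →ₗ[ℂ] Y)) ∧ ‖S - S'‖ ≤ ε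

lemma compact_of_fin {Z : Type} [NormedAddCommGroup Z] [NormedSpace ℂ Z] (S : X →L[ℂ] Z)
    (h : FiniteDimensional ℂ (LinearMap.range (S : X →ₗ[ℂ] Z))) : IsCompactOperator S := by
  set R := LinearMap.range (S : X →ₗ[ℂ] Z) with hR
  set S' : X →L[ℂ] R := S.codRestrict R (fun x => LinearMap.mem_range_self _ x) with hS'
  have : ProperSpace R := FiniteDimensional.proper ℂ R
  refine ⟨(fun z : R => (z : Z)) '' Metric.closedBall 0 ‖S'‖,
    (isCompact_closedBall _ _).image continuous_subtype_val, ?_⟩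
  refine Filter.mem_of_superset (Metric.closedBall_mem_nhds (0 : X) one_pos) (fun x hx => ?_)
  refine ⟨S' x, ?_, rfl⟩
  rw [mem_closedBall_zero_iff] at hx ⊢
  calc ‖S' x‖ ≤ ‖S'‖ * ‖x‖ := S'.le_opNorm x
    _ ≤ ‖S'‖ * 1 := mul_le_mul_of_nonneg_left hx S'.opNorm_nonneg
    _ = _ := mul_one _

lemma fin_lim (hKL : S_KL) {α : ℕ → ℕ} {S : X →L[ℂ] Y} {L : Y →ₗ[ℂ] Y} (h : IsLim P α S L)
    (hS : FiniteDimensional ℂ (LinearMap.range (S : X →ₗ[ℂ] Y))) :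
    ∀ ε : ℝ, 0 < ε → ∃ K, ∀ k, K ≤ k → ‖D.tr k L‖ ≤ ε := by
  set R := LinearMap.range (S : X →ₗ[ℂ] Y) with hR
  set b := Module.finBasis ℂ R with hb
  set S' : X →L[ℂ] R := S.codRestrict R (fun x => LinearMap.mem_range_self _ x) with hS'
  set φ : Fin (Module.finrank ℂ R) → (X →L[ℂ] ℂ) := fun i =>
    (LinearMap.toContinuousLinearMap (b.coord i)).comp S' with hφ
  have h1 : ∀ x, S x = ∑ i, φ i x • ((b i : R) : Y) := by
    intro x
    have h2 := b.sum_repr (S' x)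
    have h3 := congrArg (fun y : R => (y : Y)) h2
    simp only [Submodule.coe_sum, Submodule.coe_smul] at h3
    exact h3.symm
  have hex : ∀ i, ∃ ψ : Y →ₗ[ℂ] ℂ, IsLim P α (φ i) ψ := fun i =>
    hKL Y D X P ℂ α (φ i) (compact_of_fin (φ i) inferInstance)
  choose ψ hψ using hex
  have hL : ∀ k, ∀ y ∈ D.Yk k, L y = ∑ i, ψ i y • ((b i : R) : Y) := by
    intro k y hy
    refine tendsto_nhds_unique (h k y hy) ?_
    simp only [h1]
    exact tendsto_finsetSum _ (fun i _ => (hψ i k y hy).smul_const _)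
  set M : ℝ := ∑ i, ‖φ i‖ * ‖((b i : R) : Y)‖ with hM
  have hM0 : 0 ≤ M := Finset.sum_nonneg (fun i _ => by positivity)
  have h4 : ∀ k, ‖D.tr k L‖ ≤ (12 * M) * (4 ^ k / D.s k) := by
    intro k
    have hs : (0 : ℝ) < D.s k := by exact_mod_cast D.s_pos k
    unfold TrD.tr
    rw [norm_div, Complex.norm_natCast, ← mul_div_assoc]
    refine div_le_div_of_nonneg_right ?_ hs.le
    have h5 : ∑ i, D.f k i (L (D.e k i)) =
        ∑ l, ∑ i, ψ l (D.e k i) * D.f k i ((b l : R) : Y) := by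
      rw [Finset.sum_comm]
      refine Finset.sum_congr rfl (fun i _ => ?_)
      rw [hL (k + 1) _ (D.e_mem k i), map_sum]
      refine Finset.sum_congr rfl (fun l _ => ?_)
      rw [map_smul, smul_eq_mul]
    rw [h5]
    have h6 : ∀ l, ‖∑ i, ψ l (D.e k i) * D.f k i ((b l : R) : Y)‖ ≤
        12 * 4 ^ k * (‖φ l‖ * ‖((b l : R) : Y)‖) := by
      intro l
      have h7 := D.rank_one k (ψ l) (‖φ l‖ * 2 ^ ((k + 1) / 4)) (by positivity)
        (fun y hy => by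
          have := (hψ l).norm_le P ((k + 1) / 4) (k + 1) (k_le_AA α (k + 1)) y hy
          rwa [← mul_assoc] at this) ((b l : R) : Y)
      refine h7.trans ?_
      have h8 : (2 : ℝ) ^ ((k + 1) / 4) ≤ 2 * 2 ^ k := by
        rw [mul_comm, ← pow_succ]
        exact pow_le_pow_right₀ (by norm_num) (Nat.div_le_self _ _)
      have h9 : (4 : ℝ) ^ k = 2 ^ k * 2 ^ k := by rw [← mul_pow]; norm_num
      calc 6 * 2 ^ k * (‖φ l‖ * 2 ^ ((k + 1) / 4)) * ‖((b l : R) : Y)‖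
          ≤ 6 * 2 ^ k * (‖φ l‖ * (2 * 2 ^ k)) * ‖((b l : R) : Y)‖ := by gcongr
        _ = _ := by rw [h9]; ring
    calc _ ≤ ∑ l, 12 * 4 ^ k * (‖φ l‖ * ‖((b l : R) : Y)‖) := norm_sum_le_of_le _ (fun l _ => h6 l)
      _ = _ := by rw [← Finset.mul_sum]; ring
  intro ε hε
  obtain ⟨K, hK⟩ := D.hs (ε / (12 * M + 1)) (by positivity)
  refine ⟨K, fun k hk => ?_⟩
  have hs : (0 : ℝ) < D.s k := by exact_mod_cast D.s_pos k
  have h10 : (0 : ℝ) ≤ 4 ^ k / D.s k := by positivity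
  calc _ ≤ _ := h4 k
    _ ≤ (12 * M + 1) * (4 ^ k / D.s k) := mul_le_mul_of_nonneg_right (by linarith) h10
    _ ≤ (12 * M + 1) * (ε / (12 * M + 1)) := mul_le_mul_of_nonneg_left (hK k hk) (by positivity)
    _ = ε := by field_simp

lemma app_lim (hKL : S_KL) {α : ℕ → ℕ} {S : X →L[ℂ] Y} {L : Y →ₗ[ℂ] Y} (h : IsLim P α S L)
    (hS : App S) (k0 : ℕ) : ‖D.tr k0 L‖ ≤ 64 * (5 / 8) ^ k0 * ‖S‖ := by
  refine le_of_forall_pos_le_add (fun ε hε => ?_)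
  obtain ⟨S', hS', hn⟩ := hS (ε / 140) (by positivity)
  obtain ⟨L', hL'⟩ := hKL Y D X P Y α S' (compact_of_fin S' hS')
  have hL'' : IsLim P α S' L' := hL'
  obtain ⟨K, hK⟩ := fin_lim P hKL hL'' hS' (ε / 2) (by positivity)
  have h1 := unif P (h.sub P hL'') (k0 + K)
  rw [tr_sub] at h1
  have h2 := hK (k0 + K) (by omega)
  have h3 := tel P h k0 K
  have h4 : ‖D.tr (k0 + K) L‖ ≤ ‖D.tr (k0 + K) L - D.tr (k0 + K) L'‖ + ‖D.tr (k0 + K) L'‖ := by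
    have := norm_add_le (D.tr (k0 + K) L - D.tr (k0 + K) L') (D.tr (k0 + K) L')
    rwa [sub_add_cancel] at this
  have h5 : ‖D.tr k0 L‖ ≤ ‖D.tr k0 L - D.tr (k0 + K) L‖ + ‖D.tr (k0 + K) L‖ := by
    have := norm_add_le (D.tr k0 L - D.tr (k0 + K) L) (D.tr (k0 + K) L)
    rwa [sub_add_cancel] at this
  linarith

end

end W700.KK
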