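import Pool.Agent.W700.KK.Conc
import Pool.Agent.W976.KK.KY
import Pool.Agent.W177.KK.KA
import Pool.Agent.W597.KKX
import Pool.Agent.W308.KK.KL
import Pool.Agent.W308.KK.KT

set_option autoImplicit false

namespace W700.KK

/-- There is a complex Banach space with a compact operator which is not a finite linear combination of
products of two compact operators. -/
theorem main : ∃ (E : Type) (_ : NormedAddCommGroup E) (_ : NormedSpace ℂ E) (_ : CompleteSpace E)
      (T : E →L[ℂ] E), IsCompactOperator T ∧
      T ∉ Submodule.span ℂ {w : E →L[ℂ] E | ∃ a b : E →L[ℂ] E,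
        IsCompactOperator a ∧ IsCompactOperator b ∧ w = a.comp b} :=
  final Pool.Agent.W976.KK.main Pool.Agent.W177.KK.ka Pool.Agent.W597.KKX.main
    Pool.Agent.W308.KK.KL.main Pool.Agent.W308.KK.KT.main

end W700.KK
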