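import Pool.Agent.W700.KK.Est

set_option autoImplicit false

open Filter Topology

namespace W700.KK

section
variable {Y : Type} [NormedAddCommGroup Y] [NormedSpace ℂ Y] {D : TrD Y}
variable {X : Type} [NormedAddCommGroup X] [NormedSpace ℂ X] (P : XD D X)

/-- A decomposition of `T α`. -/
structure Dec (α : ℕ → ℕ) (m M : ℕ) where
  d : Fin m → (Y →L[ℂ] Y)
  c : Fin m → (X →L[ℂ] Y)
  g : X →L[ℂ] Y
  L : Fin m → (Y →ₗ[ℂ] Y)
  hd : ∀ l, IsCompactOperator (d l)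
  nd : ∀ l, ‖d l‖ ≤ M
  nc : ∀ l, ‖c l‖ ≤ M
  ng : ‖g‖ ≤ M
  hT : P.T α = ∑ l, (d l).comp (c l) + g
  hg : App g
  hL : ∀ l, IsLim P α (c l) (L l)

lemma exists_k0 (m M : ℕ) : ∃ k0 : ℕ, 64 * (5 / 8 : ℝ) ^ k0 * (m * M ^ 2 + M) ≤ 1 / 8 := by
  have h1 : Tendsto (fun k : ℕ => 64 * (5 / 8 : ℝ) ^ k * (m * M ^ 2 + M)) atTop (𝓝 0) := by
    have h2 := ((tendsto_pow_atTop_nhds_zero_of_lt_one (by norm_num)
      (show (5 / 8 : ℝ) < 1 by norm_num)).const_mul 64).mul_const ((m : ℝ) * M ^ 2 + M)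
    simpa using h2
  obtain ⟨k, hk⟩ := (h1.eventually_le_const (show (0 : ℝ) < 1 / 8 by norm_num)).exists
  exact ⟨k, hk⟩

noncomputable def K0 (m M : ℕ) : ℕ := (exists_k0 m M).choose

lemma K0_spec (m M : ℕ) : 64 * (5 / 8 : ℝ) ^ (K0 m M) * (m * M ^ 2 + M) ≤ 1 / 8 :=
  (exists_k0 m M).choose_spec

lemma low (hKL : S_KL) {α : ℕ → ℕ} {m M : ℕ} (A : Dec P α m M) :
    7 / 8 ≤ ‖D.tr (K0 m M) (∑ l, ((A.d l : Y →L[ℂ] Y) : Y →ₗ[ℂ] Y).comp (A.L l))‖ := by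
  have h1 : IsLim P α (∑ l, (A.d l).comp (A.c l))
      (∑ l, ((A.d l : Y →L[ℂ] Y) : Y →ₗ[ℂ] Y).comp (A.L l)) :=
    IsLim.sum P Finset.univ _ _ (fun l => (A.hL l).comp P (A.d l))
  have h2 := (isLim_T P α).sub P h1
  have h3 : P.T α - ∑ l, (A.d l).comp (A.c l) = A.g := by
    rw [A.hT]; abel
  rw [h3] at h2
  have h4 := app_lim P hKL h2 A.hg (K0 m M)
  rw [tr_sub, tr_id] at h4
  have h5 : 64 * (5 / 8 : ℝ) ^ (K0 m M) * ‖A.g‖ ≤ 1 / 8 := by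
    refine le_trans ?_ (K0_spec m M)
    refine mul_le_mul_of_nonneg_left ?_ (by positivity)
    have := A.ng
    have h6 : (0 : ℝ) ≤ m * M ^ 2 := by positivity
    linarith
  have h7 := norm_sub_norm_le (1 : ℂ) (D.tr (K0 m M)
    (∑ l, ((A.d l : Y →L[ℂ] Y) : Y →ₗ[ℂ] Y).comp (A.L l)))
  rw [norm_one] at h7
  linarith

variable [TopologicalSpace.SeparableSpace Y]

/-- The code. -/
def Rel {α : ℕ → ℕ} {m M : ℕ} (A : Dec P α m M) (w : Fin m → Fin (D.s (K0 m M)) → ℕ × ℕ) : Prop :=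
  ∀ l i, ‖A.L l (D.e (K0 m M) i) - TopologicalSpace.denseSeq Y (w l i).1‖ ≤
      1 / (16 * (m + 1) * (M + 1)) ∧
    ‖D.f (K0 m M) i (A.d l (TopologicalSpace.denseSeq Y (w l i).1)) -
      TopologicalSpace.denseSeq ℂ (w l i).2‖ ≤ 1 / (16 * (m + 1))

lemma exists_rel {α : ℕ → ℕ} {m M : ℕ} (A : Dec P α m M) : ∃ w, Rel P A w := by
  have h1 : ∀ (l : Fin m) (i : Fin (D.s (K0 m M))), ∃ n, ‖A.L l (D.e (K0 m M) i) -
      TopologicalSpace.denseSeq Y n‖ ≤ 1 / (16 * (m + 1) * (M + 1)) := by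
    intro l i
    obtain ⟨n, hn⟩ := (TopologicalSpace.denseRange_denseSeq Y).exists_dist_lt
      (A.L l (D.e (K0 m M) i)) (show (0 : ℝ) < 1 / (16 * (m + 1) * (M + 1)) by positivity)
    exact ⟨n, by rw [← dist_eq_norm]; exact hn.le⟩
  choose n hn using h1
  have h2 : ∀ (l : Fin m) (i : Fin (D.s (K0 m M))), ∃ j, ‖D.f (K0 m M) i
      (A.d l (TopologicalSpace.denseSeq Y (n l i))) -
      TopologicalSpace.denseSeq ℂ j‖ ≤ 1 / (16 * (m + 1)) := by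
    intro l i
    obtain ⟨j, hj⟩ := (TopologicalSpace.denseRange_denseSeq ℂ).exists_dist_lt
      (D.f (K0 m M) i (A.d l (TopologicalSpace.denseSeq Y (n l i))))
      (show (0 : ℝ) < 1 / (16 * (m + 1)) by positivity)
    exact ⟨j, by rw [← dist_eq_norm]; exact hj.le⟩
  choose j hj using h2
  exact ⟨fun l i => (n l i, j l i), fun l i => ⟨hn l i, hj l i⟩⟩

omit [TopologicalSpace.SeparableSpace Y] in
lemma norm_f_comp_le (D : TrD Y) (k : ℕ) (i : Fin (D.s k)) (d : Y →L[ℂ] Y) (M : ℕ) (hd : ‖d‖ ≤ M)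
    (y : Y) : ‖D.f k i (d y)‖ ≤ M * ‖y‖ := by
  calc _ ≤ ‖D.f k i‖ * ‖d y‖ := (D.f k i).le_opNorm _
    _ ≤ 1 * (‖d‖ * ‖y‖) := mul_le_mul (D.norm_f k i) (d.le_opNorm y) (norm_nonneg _) zero_le_one
    _ ≤ _ := by rw [one_mul]; exact mul_le_mul_of_nonneg_right hd (norm_nonneg _)

lemma close {α β : ℕ → ℕ} {m M : ℕ} (A : Dec P α m M) (B : Dec P β m M)
    (w : Fin m → Fin (D.s (K0 m M)) → ℕ × ℕ) (hA : Rel P A w) (hB : Rel P B w) :
    ‖D.tr (K0 m M) (∑ l, ((A.d l : Y →L[ℂ] Y) : Y →ₗ[ℂ] Y).comp (B.L l)) -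
      D.tr (K0 m M) (∑ l, ((B.d l : Y →L[ℂ] Y) : Y →ₗ[ℂ] Y).comp (B.L l))‖ ≤ 1 / 4 := by
  rw [← tr_sub]
  refine tr_le D _ _ _ (fun i => ?_)
  have hm : (0 : ℝ) < m + 1 := by positivity
  have hM : (0 : ℝ) < (M : ℝ) + 1 := by positivity
  have key : ∀ l, ‖D.f (K0 m M) i (A.d l (B.L l (D.e (K0 m M) i))) -
      D.f (K0 m M) i (B.d l (B.L l (D.e (K0 m M) i)))‖ ≤ 1 / (4 * (m + 1)) := by
    intro l
    set v := B.L l (D.e (K0 m M) i) with hv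
    set q := TopologicalSpace.denseSeq Y (w l i).1 with hq
    set z := TopologicalSpace.denseSeq ℂ (w l i).2 with hz
    have e1 : D.f (K0 m M) i (A.d l v) - D.f (K0 m M) i (B.d l v) =
        D.f (K0 m M) i (A.d l (v - q)) + (D.f (K0 m M) i (A.d l q) - z) -
        (D.f (K0 m M) i (B.d l q) - z) - D.f (K0 m M) i (B.d l (v - q)) := by
      rw [map_sub, map_sub, map_sub, map_sub]; ring
    have b1 := (hA l i).2
    have b2 := (hB l i).2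
    have b3 : ‖v - q‖ ≤ 1 / (16 * (m + 1) * (M + 1)) := (hB l i).1
    have b4 : (M : ℝ) * ‖v - q‖ ≤ 1 / (16 * (m + 1)) := by
      calc (M : ℝ) * ‖v - q‖ ≤ M * (1 / (16 * (m + 1) * (M + 1))) :=
            mul_le_mul_of_nonneg_left b3 (by positivity)
        _ ≤ (M + 1) * (1 / (16 * (m + 1) * (M + 1))) :=
            mul_le_mul_of_nonneg_right (by linarith) (by positivity)
        _ = _ := by field_simp
    have b5 := norm_f_comp_le D (K0 m M) i (A.d l) M (A.nd l) (v - q)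
    have b6 := norm_f_comp_le D (K0 m M) i (B.d l) M (B.nd l) (v - q)
    rw [e1]
    have e2 : (1 : ℝ) / (4 * (m + 1)) = 1 / (16 * (m + 1)) + 1 / (16 * (m + 1)) +
        1 / (16 * (m + 1)) + 1 / (16 * (m + 1)) := by field_simp; norm_num
    rw [e2]
    refine (norm_sub_le _ _).trans (add_le_add ((norm_sub_le _ _).trans
      (add_le_add ((norm_add_le _ _).trans (add_le_add (b5.trans b4) b1)) b2)) (b6.trans b4))
  have e3 : D.f (K0 m M) i ((∑ l, ((A.d l : Y →L[ℂ] Y) : Y →ₗ[ℂ] Y).comp (B.L l) -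
      ∑ l, ((B.d l : Y →L[ℂ] Y) : Y →ₗ[ℂ] Y).comp (B.L l)) (D.e (K0 m M) i)) =
      ∑ l, (D.f (K0 m M) i (A.d l (B.L l (D.e (K0 m M) i))) -
        D.f (K0 m M) i (B.d l (B.L l (D.e (K0 m M) i)))) := by
    rw [← Finset.sum_sub_distrib, LinearMap.sum_apply, map_sum]
    refine Finset.sum_congr rfl (fun l _ => ?_)
    rw [LinearMap.sub_apply, map_sub]
    rfl
  rw [e3]
  calc _ ≤ ∑ l : Fin m, 1 / (4 * ((m : ℝ) + 1)) := norm_sum_le_of_le _ (fun l _ => key l)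
    _ = m * (1 / (4 * ((m : ℝ) + 1))) := by
        rw [Finset.sum_const, Finset.card_univ, Fintype.card_fin, nsmul_eq_mul]
    _ ≤ (m + 1) * (1 / (4 * ((m : ℝ) + 1))) :=
        mul_le_mul_of_nonneg_right (by linarith) (by positivity)
    _ = 1 / 4 := by field_simp

lemma bounded (hKL : S_KL) (hKT : S_KT) {α : ℕ → ℕ} {m M : ℕ} (A : Dec P α m M)
    (w : Fin m → Fin (D.s (K0 m M)) → ℕ × ℕ) (hA : Rel P A w) :
    ∃ s : ℕ → ℕ, ∀ (β : ℕ → ℕ) (B : Dec P β m M), Rel P B w → ∀ r, β r ≤ s r := by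
  have hm : (0 : ℝ) < m + 1 := by positivity
  have hM : (0 : ℝ) < (M : ℝ) + 1 := by positivity
  have h1 : ∀ (l : Fin m) (r : ℕ), ∃ K, ∀ k, K ≤ k → ∀ i, ‖(D.f k i).comp (A.d l)‖ ≤
      1 / (24 * (m + 1) * (M + 1) * 2 ^ r) := fun l r =>
    hKT Y D (A.d l) (A.hd l) _ (by positivity)
  choose K hK using h1
  refine ⟨fun r => ∑ l, K l r + K0 m M + 1, fun β B hB r => ?_⟩
  by_contra hcon
  rw [not_le] at hcon
  beta_reduce at hcon
  obtain ⟨k, hk⟩ : ∃ k, AA β r = k + 1 := ⟨AA β r - 1, by have := le_AA' β r; omega⟩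
  have hβ := le_AA' β r
  have hk0 : K0 m M ≤ k := by omega
  have hKl : ∀ l, K l r ≤ k := by
    intro l
    have : K l r ≤ ∑ l, K l r := Finset.single_le_sum (f := fun l => K l r)
      (fun _ _ => Nat.zero_le _) (Finset.mem_univ l)
    omega
  have hlim : IsLim P β (∑ l, (A.d l).comp (B.c l))
      (∑ l, ((A.d l : Y →L[ℂ] Y) : Y →ₗ[ℂ] Y).comp (B.L l)) :=
    IsLim.sum P Finset.univ _ _ (fun l => (B.hL l).comp P (A.d l))
  have hnorm : ‖∑ l, (A.d l).comp (B.c l)‖ ≤ m * M ^ 2 := by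
    calc _ ≤ ∑ l : Fin m, (M : ℝ) ^ 2 := by
          refine norm_sum_le_of_le _ (fun l _ => ?_)
          refine (ContinuousLinearMap.opNorm_comp_le _ _).trans ?_
          rw [sq]
          exact mul_le_mul (A.nd l) (B.nc l) (norm_nonneg _) (by positivity)
      _ = _ := by rw [Finset.sum_const, Finset.card_univ, Fintype.card_fin, nsmul_eq_mul]
  have t1 := close P A B w hA hB
  have t2 := low P hKL B
  obtain ⟨j, rfl⟩ := Nat.exists_eq_add_of_le hk0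
  have t3 := tel P hlim (K0 m M) j
  have t4 : 64 * (5 / 8 : ℝ) ^ (K0 m M) * ‖∑ l, (A.d l).comp (B.c l)‖ ≤ 1 / 8 := by
    refine le_trans ?_ (K0_spec m M)
    refine mul_le_mul_of_nonneg_left ?_ (by positivity)
    have h6 : (0 : ℝ) ≤ M := by positivity
    linarith
  have t5 : ‖D.tr (K0 m M + j) (∑ l, ((A.d l : Y →L[ℂ] Y) : Y →ₗ[ℂ] Y).comp (B.L l))‖ ≤ 1 / 4 := by
    refine tr_le D _ _ _ (fun i => ?_)
    have key : ∀ l, ‖D.f (K0 m M + j) i (A.d l (B.L l (D.e (K0 m M + j) i)))‖ ≤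
        1 / (4 * (m + 1)) := by
      intro l
      have b1 := hK l r _ (hKl l) i
      have b2 := (B.hL l).norm_le P r (K0 m M + j + 1) hk.ge _ (D.e_mem (K0 m M + j) i)
      have b3 : ‖D.f (K0 m M + j) i (A.d l (B.L l (D.e (K0 m M + j) i)))‖ ≤
          ‖(D.f (K0 m M + j) i).comp (A.d l)‖ * ‖B.L l (D.e (K0 m M + j) i)‖ :=
        ((D.f (K0 m M + j) i).comp (A.d l)).le_opNorm _
      have b4 : ‖B.L l (D.e (K0 m M + j) i)‖ ≤ (M + 1) * (2 ^ r * 6) := by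
        refine b2.trans ?_
        refine mul_le_mul ((B.nc l).trans (by linarith)) ?_ (by positivity) (by positivity)
        exact mul_le_mul_of_nonneg_left (D.norm_e _ i) (by positivity)
      refine b3.trans ?_
      calc _ ≤ (1 / (24 * (m + 1) * (M + 1) * 2 ^ r)) * (((M : ℝ) + 1) * (2 ^ r * 6)) :=
            mul_le_mul b1 b4 (norm_nonneg _) (by positivity)
        _ = _ := by field_simp; norm_num
    have e3 : D.f (K0 m M + j) i ((∑ l, ((A.d l : Y →L[ℂ] Y) : Y →ₗ[ℂ] Y).comp (B.L l))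
        (D.e (K0 m M + j) i)) =
        ∑ l, D.f (K0 m M + j) i (A.d l (B.L l (D.e (K0 m M + j) i))) := by
      rw [LinearMap.sum_apply, map_sum]
      rfl
    rw [e3]
    calc _ ≤ ∑ l : Fin m, 1 / (4 * ((m : ℝ) + 1)) := norm_sum_le_of_le _ (fun l _ => key l)
      _ = m * (1 / (4 * ((m : ℝ) + 1))) := by
          rw [Finset.sum_const, Finset.card_univ, Fintype.card_fin, nsmul_eq_mul]
      _ ≤ (m + 1) * (1 / (4 * ((m : ℝ) + 1))) :=
          mul_le_mul_of_nonneg_right (by linarith) (by positivity)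
      _ = 1 / 4 := by field_simp
  set a := D.tr (K0 m M) (∑ l, ((A.d l : Y →L[ℂ] Y) : Y →ₗ[ℂ] Y).comp (B.L l))
  set b := D.tr (K0 m M) (∑ l, ((B.d l : Y →L[ℂ] Y) : Y →ₗ[ℂ] Y).comp (B.L l))
  set c := D.tr (K0 m M + j) (∑ l, ((A.d l : Y →L[ℂ] Y) : Y →ₗ[ℂ] Y).comp (B.L l))
  have u1 : ‖b‖ ≤ ‖a‖ + ‖a - b‖ := by
    have := norm_sub_le a (a - b)
    rwa [sub_sub_cancel] at this
  have u2 : ‖a‖ ≤ ‖a - c‖ + ‖c‖ := by
    have := norm_add_le (a - c) c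
    rwa [sub_add_cancel] at this
  linarith

/-- Not all `T α` have a decomposition. -/
theorem no_dec (hKL : S_KL) (hKT : S_KT) :
    ∃ α : ℕ → ℕ, ∀ m M : ℕ, IsEmpty (Dec P α m M) := by
  obtain ⟨γ, hγ⟩ := diag (Σ (m : ℕ) (M : ℕ), (Fin m → Fin (D.s (K0 m M)) → ℕ × ℕ))
    (fun c => {α | ∃ A : Dec P α c.1 c.2.1, Rel P A c.2.2}) (by
      rintro ⟨m, M, w⟩
      by_cases h : ∃ α, ∃ A : Dec P α m M, Rel P A w
      · obtain ⟨α, A, hA⟩ := h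
        obtain ⟨s, hs⟩ := bounded P hKL hKT A w hA
        exact ⟨s, fun β ⟨B, hB⟩ => hs β B hB⟩
      · exact ⟨fun _ => 0, fun β hβ => absurd ⟨β, hβ⟩ h⟩)
  refine ⟨γ, fun m M => ⟨fun A => ?_⟩⟩
  obtain ⟨w, hw⟩ := exists_rel P A
  exact hγ ⟨m, M, w⟩ ⟨A, hw⟩

end

end W700.KK
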